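import Pool.Agent.H93.ES.Targets

/-!
# Board es_modules, row EXA: the exponential moments of the tests (A) under independence
-/

set_option autoImplicit false

open Finset Pool.Agent.H18.MR Pool.Agent.H93.DE Pool.Agent.H6.N4D Pool.Agent.H93 Pool.Agent.H93.ES

namespace Pool.Agent.H10.ES

theorem exa_coord {R D : ℕ} (r : Fin R) (g : Fin D → ℂ) :
    (∑ e : Fin R → Fin D, g (e r)) * D = (D : ℂ) ^ R * ∑ i, g i := by
  have h := Finset.prod_univ_sum (fun _ : Fin R => (univ : Finset (Fin D)))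
    (fun r' i => if r' = r then g i else 1)
  rw [Fintype.piFinset_univ] at h
  have h1 : ∑ e : Fin R → Fin D, ∏ r', (if r' = r then g (e r') else 1) =
      ∑ e : Fin R → Fin D, g (e r) := by
    refine sum_congr rfl fun e _ => ?_
    rw [Finset.prod_ite_eq' univ r (fun r' => g (e r')), if_pos (mem_univ _)]
  rw [h1] at h
  rw [← h]
  have h2 := Finset.mul_prod_erase univ
    (fun r' : Fin R => ∑ i : Fin D, (if r' = r then g i else 1)) (mem_univ r)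
  have h3 := Finset.mul_prod_erase univ (fun _ : Fin R => (D : ℂ)) (mem_univ r)
  have h5 : ∏ _x : Fin R, (D : ℂ) = (D : ℂ) ^ R := by
    rw [prod_const, card_univ, Fintype.card_fin]
  rw [h5] at h3
  rw [← h2, ← h3]
  have h4 : ∏ x ∈ univ.erase r, ∑ i : Fin D, (if x = r then g i else 1) =
      ∏ x ∈ univ.erase r, (D : ℂ) := by
    refine prod_congr rfl fun x hx => ?_
    simp [ne_of_mem_erase hx]
  rw [h4]
  simp only [if_true]
  ring

theorem exa_mean {R D : ℕ} (hD : 1 ≤ D) (y : Fin R → Fin D → ℂ) :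
    (∑ e : Fin R → Fin D, (∑ r, y r (e r)) / (R : ℂ)) / (D : ℂ) ^ R =
      (∑ r, (∑ i, y r i) / D) / R := by
  have hD0 : (D : ℂ) ≠ 0 := by
    exact_mod_cast (by omega : D ≠ 0)
  rw [← sum_div, sum_comm, div_right_comm]
  congr 1
  rw [sum_div]
  refine sum_congr rfl fun r _ => ?_
  rw [div_eq_div_iff (pow_ne_zero _ hD0) hD0, exa_coord r (y r)]
  ring

theorem exa_wt (m K t : ℕ) : 0 ≤ wt m K t ∧ wt m K t ≤ 1 := by
  unfold wt
  refine ⟨by positivity, ?_⟩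
  rw [div_le_one (by positivity)]
  have h3 : ∀ M : ℕ, ((range K).filter (fun p => p ≤ t ∧ t < p + M)).card ≤ M := by
    intro M
    have h : (range K).filter (fun p => p ≤ t ∧ t < p + M) ⊆ Icc (t + 1 - M) t := by
      intro p hp
      rw [mem_filter] at hp
      rw [mem_Icc]
      omega
    have h2 := card_le_card h
    rw [Nat.card_Icc] at h2
    omega
  exact_mod_cast h3 (2 ^ m)

theorem exa_block {m q : ℕ} (hq : q ∈ oct m) (f : ℕ → ℝ) (hf : ∀ t, |f t| ≤ 1) (r₀ : ℕ) (α : ℝ)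
    (p : ℕ) :
    ‖(∑ s ∈ range (2 ^ m), (f (p + s) : ℂ) * kA q r₀ α (p + s)) / 2 ^ m‖ ≤ 3 := by
  obtain ⟨hq1, hq2⟩ := mem_Ioc.1 (mem_filter.1 hq).1
  have hm : (0 : ℝ) < 2 ^ m := by positivity
  rw [norm_div, norm_pow, Complex.norm_ofNat, div_le_iff₀ hm]
  have h1 : ∀ s ∈ range (2 ^ m), ‖(f (p + s) : ℂ) * kA q r₀ α (p + s)‖ ≤
      (if q ∣ r₀ + (p + s) then (q : ℝ) else 0) + 1 := by
    intro s _
    unfold kA DR
    rw [norm_mul, norm_mul, norm_ee, mul_one, Complex.norm_real, Complex.norm_real,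
      Real.norm_eq_abs, Real.norm_eq_abs]
    have h2 : |(if q ∣ r₀ + (p + s) then (q : ℝ) else 0) - 1| ≤
        (if q ∣ r₀ + (p + s) then (q : ℝ) else 0) + 1 := by
      have h3 : (0 : ℝ) ≤ if q ∣ r₀ + (p + s) then (q : ℝ) else 0 := by
        split_ifs <;> positivity
      rw [abs_le]
      constructor <;> linarith
    calc |f (p + s)| * |(if q ∣ r₀ + (p + s) then (q : ℝ) else 0) - 1| ≤
        1 * |(if q ∣ r₀ + (p + s) then (q : ℝ) else 0) - 1| :=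
          mul_le_mul_of_nonneg_right (hf _) (abs_nonneg _)
      _ ≤ _ := by rw [one_mul]; exact h2
  refine (norm_sum_le _ _).trans ((sum_le_sum h1).trans ?_)
  rw [sum_add_distrib, ← sum_filter, sum_const, sum_const, card_range, nsmul_eq_mul,
    nsmul_eq_mul, mul_one]
  have h2 : ((range (2 ^ m)).filter (fun s => q ∣ r₀ + (p + s))).card ≤ 1 := by
    rw [card_le_one]
    intro a ha b hb
    rw [mem_filter, mem_range] at ha hb
    by_contra hab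
    rcases lt_or_gt_of_ne hab with h | h
    · have h3 := (Nat.dvd_sub hb.2 ha.2)
      have h4 : r₀ + (p + b) - (r₀ + (p + a)) = b - a := by omega
      rw [h4] at h3
      have := Nat.le_of_dvd (by omega) h3
      omega
    · have h3 := (Nat.dvd_sub ha.2 hb.2)
      have h4 : r₀ + (p + a) - (r₀ + (p + b)) = a - b := by omega
      rw [h4] at h3
      have := Nat.le_of_dvd (by omega) h3
      omega
  have h3 : (((range (2 ^ m)).filter (fun s => q ∣ r₀ + (p + s))).card : ℝ) ≤ 1 := by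
    exact_mod_cast h2
  have h4 : (q : ℝ) ≤ 2 * 2 ^ m := by
    have : (q : ℝ) ≤ ((2 ^ (m + 1) : ℕ) : ℝ) := by exact_mod_cast hq2
    push_cast at this
    rw [pow_succ] at this
    linarith
  have h5 : (0 : ℝ) ≤ q := Nat.cast_nonneg q
  push_cast
  nlinarith

theorem exa_exp {κ x : ℝ} (h0 : 0 ≤ x) (h9 : x ≤ 9) :
    Real.exp (2 * κ * x) ≤ 1 + x * Real.exp (18 * κ) := by
  have h := convexOn_exp.2 (Set.mem_univ (0 : ℝ)) (Set.mem_univ (18 * κ))
    (by linarith : 0 ≤ 1 - x / 9) (by positivity : 0 ≤ x / 9) (by ring)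
  rw [smul_eq_mul, smul_eq_mul, smul_eq_mul, smul_eq_mul, mul_zero, zero_add, Real.exp_zero,
    mul_one] at h
  have h2 : x / 9 * (18 * κ) = 2 * κ * x := by ring
  rw [h2] at h
  have h3 := Real.exp_pos (18 * κ)
  nlinarith [mul_nonneg h0 h3.le]

/-- One sample. -/
theorem exa_smp (hH : T_HFC) {R D m q : ℕ} (hD : 1 ≤ D) (hR1 : 1 ≤ R) {κ : ℝ} (hκ0 : 0 ≤ κ)
    (hR : 1000 * κ ≤ R) (hq : q ∈ oct m) (k : ℕ) (f : ℕ → ℝ) (hf : ∀ t, |f t| ≤ 1) (r₀ : ℕ)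
    (α : ℝ) :
    avE R D (fun e => Real.exp (κ * ‖smp f m (kA q r₀ α) e k‖ ^ 2)) ≤
    4 * (1 + ‖(∑ e : Fin R → Fin D, smp f m (kA q r₀ α) e k) / (D : ℂ) ^ R‖ ^ 2 *
        Real.exp (18 * κ)) := by
  obtain ⟨y, hy⟩ : ∃ y : Fin R → Fin D → ℂ, y = fun (r : Fin R) (i : Fin D) =>
    if (r : ℕ) < k then (∑ s ∈ range (2 ^ m), (f (r * D + i + s) : ℂ) *
      kA q r₀ α (r * D + i + s)) / 2 ^ m else 0 := ⟨_, rfl⟩
  have hy3 : ∀ r i, ‖y r i‖ ≤ 3 := by
    intro r i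
    rw [hy]
    simp only
    split_ifs
    · exact exa_block hq f hf r₀ α _
    · rw [norm_zero]; norm_num
  have hsmp : ∀ e : Fin R → Fin D, smp f m (kA q r₀ α) e k =
      (∑ r, y r (e r)) / (R : ℂ) := by
    intro e
    rw [hy]
    rfl
  have h1 := hH R D y κ hD hκ0 hR hy3
  simp only [hsmp]
  rw [exa_mean hD y]
  have hμ9 : ‖(∑ r, (∑ i, y r i) / (D : ℂ)) / (R : ℂ)‖ ≤ 3 := by
    have hR0 : (0 : ℝ) < (R : ℝ) := by exact_mod_cast hR1
    have hD0 : (0 : ℝ) < (D : ℝ) := by exact_mod_cast hD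
    rw [norm_div, Complex.norm_natCast, div_le_iff₀ hR0]
    refine (norm_sum_le _ _).trans ?_
    calc ∑ r : Fin R, ‖(∑ i, y r i) / (D : ℂ)‖ ≤
        ∑ _r : Fin R, (3 : ℝ) := by
          refine sum_le_sum fun r _ => ?_
          rw [norm_div, Complex.norm_natCast, div_le_iff₀ hD0]
          refine (norm_sum_le _ _).trans ?_
          calc ∑ i, ‖y r i‖ ≤ ∑ _i : Fin D, (3 : ℝ) :=
                sum_le_sum fun i _ => hy3 r i
            _ = _ := by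
              rw [sum_const, card_univ, Fintype.card_fin, nsmul_eq_mul]; ring
      _ = _ := by rw [sum_const, card_univ, Fintype.card_fin, nsmul_eq_mul]; ring
  refine h1.trans ?_
  refine mul_le_mul_of_nonneg_left ?_ (by norm_num)
  refine exa_exp (by positivity) ?_
  have h5 := norm_nonneg ((∑ r, (∑ i, y r i) / (D : ℂ)) / (R : ℂ))
  nlinarith

theorem exa_R (w : ℕ) : 1000 * ((w : ℝ) / 10 ^ 6) ≤ ((2 ^ rho w : ℕ) : ℝ) := by
  have h1 : w < 2 ^ (Nat.log 2 w + 1) := Nat.lt_pow_succ_log_self (by norm_num) w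
  have h3 : w ≤ 2 ^ rho w := by
    refine h1.le.trans (Nat.pow_le_pow_right (by norm_num) ?_)
    unfold rho
    omega
  have h4 : (w : ℝ) ≤ ((2 ^ rho w : ℕ) : ℝ) := by exact_mod_cast h3
  have h5 : (0 : ℝ) ≤ w := Nat.cast_nonneg w
  have h6 : 1000 * ((w : ℝ) / 10 ^ 6) = w / 1000 := by ring
  rw [h6]
  linarith

theorem exa_pow (m : ℕ) : (m : ℝ) * ((51 / 50 : ℝ) ^ (m + 1)) ≤ 4 * 2 ^ m := by
  have h1 : (m : ℝ) ≤ 3 * (4 / 3 : ℝ) ^ m := by
    have := one_add_mul_le_pow (by norm_num : (-2 : ℝ) ≤ 1 / 3) m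
    have h2 : (1 + 1 / 3 : ℝ) = 4 / 3 := by norm_num
    rw [h2] at this
    linarith
  have h2 : (51 / 50 : ℝ) ^ (m + 1) ≤ 51 / 50 * (3 / 2 : ℝ) ^ m := by
    rw [pow_succ, mul_comm]
    refine mul_le_mul_of_nonneg_left ?_ (by norm_num)
    exact pow_le_pow_left₀ (by norm_num) (by norm_num) m
  calc (m : ℝ) * ((51 / 50 : ℝ) ^ (m + 1)) ≤
      (3 * (4 / 3 : ℝ) ^ m) * (51 / 50 * (3 / 2 : ℝ) ^ m) :=
        mul_le_mul h1 h2 (by positivity) (by positivity)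
    _ = 153 / 50 * ((4 / 3 : ℝ) ^ m * (3 / 2 : ℝ) ^ m) := by ring
    _ = 153 / 50 * 2 ^ m := by rw [← mul_pow]; norm_num
    _ ≤ 4 * 2 ^ m := by
        have : (0 : ℝ) < 2 ^ m := by positivity
        linarith

/-- The bound for the exponential. -/
theorem exa_card {c κ : ℝ} {w m : ℕ} (hc : 0 < c) (hcard : c * 2 ^ m / m ≤ ((oct m).card : ℝ))
    (hm : 1 ≤ m) (hw : w ≤ 400 * (m + 1)) (hκ : κ = (w : ℝ) / 10 ^ 6) :
    Real.exp (18 * κ) ≤ 4 / c * ((oct m).card : ℝ) := by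
  have hm0 : (0 : ℝ) < m := by exact_mod_cast hm
  have h1 : (w : ℝ) ≤ 400 * ((m : ℝ) + 1) := by exact_mod_cast hw
  have h2 : 18 * κ ≤ ((m + 1 : ℕ) : ℝ) * (1 / 100) := by
    rw [hκ]; push_cast; linarith
  have h3 : Real.exp (1 / 100) ≤ 51 / 50 := by
    have := Real.exp_bound_div_one_sub_of_interval (by norm_num : (0 : ℝ) ≤ 1 / 100)
      (by norm_num)
    refine this.trans ?_
    norm_num
  have h4 : Real.exp (18 * κ) ≤ (51 / 50 : ℝ) ^ (m + 1) := by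
    refine (Real.exp_le_exp.2 h2).trans ?_
    rw [Real.exp_nat_mul]
    exact pow_le_pow_left₀ (Real.exp_pos _).le h3 _
  have h5 := exa_pow m
  have h6 : (m : ℝ) * Real.exp (18 * κ) ≤ 4 * 2 ^ m :=
    (mul_le_mul_of_nonneg_left h4 hm0.le).trans h5
  have h7 : c * 2 ^ m ≤ (oct m).card * (m : ℝ) := by
    rw [div_le_iff₀ hm0] at hcard; exact hcard
  rw [div_mul_eq_mul_div, le_div_iff₀ hc]
  have h8 : (Real.exp (18 * κ) * c) * m ≤ (4 * ((oct m).card : ℝ)) * m := by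
    calc (Real.exp (18 * κ) * c) * m = c * ((m : ℝ) * Real.exp (18 * κ)) := by ring
      _ ≤ c * (4 * 2 ^ m) := mul_le_mul_of_nonneg_left h6 hc.le
      _ = 4 * (c * 2 ^ m) := by ring
      _ ≤ 4 * ((oct m).card * (m : ℝ)) := mul_le_mul_of_nonneg_left h7 (by norm_num)
      _ = _ := by ring
  exact le_of_mul_le_mul_right h8 hm0

/-- The mean square of the class means. -/
theorem exa_lsv (hL : T_LSV) {w m K : ℕ} (hmw : 4 * m + 4 ≤ w) (f : ℕ → ℝ)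
    (hf : ∀ t, |f t| ≤ 1) (α : ℝ) :
    ∑ q ∈ oct m, (∑ r₀ ∈ range q, ‖(∑ t ∈ range (2 ^ w + 2 ^ m),
      ((f t * wt m K t : ℝ) : ℂ) * kA q r₀ α t) / 2 ^ w‖ ^ 2) / q ≤ 8 := by
  have hT : (2 : ℕ) ^ (4 * m + 4) ≤ 2 ^ w + 2 ^ m :=
    (Nat.pow_le_pow_right (by norm_num) hmw).trans (Nat.le_add_right _ _)
  have hl := hL m (2 ^ w + 2 ^ m)
    (fun t => ((f t * wt m K t : ℝ) : ℂ) * ee (-(α * t))) hT (by
      intro t
      rw [norm_mul, norm_ee, mul_one, Complex.norm_real, Real.norm_eq_abs, abs_mul]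
      have h1 := exa_wt m K t
      rw [abs_of_nonneg h1.1]
      calc |f t| * wt m K t ≤ 1 * 1 := mul_le_mul (hf t) h1.2 h1.1 (by norm_num)
        _ = 1 := one_mul 1)
  have hmw' : (2 : ℕ) ^ m ≤ 2 ^ w := Nat.pow_le_pow_right (by norm_num) (by omega)
  have hmw2 : (2 : ℝ) ^ m ≤ 2 ^ w := by exact_mod_cast hmw'
  obtain ⟨W, hW⟩ : ∃ W : ℝ, W = 2 ^ w := ⟨_, rfl⟩
  obtain ⟨T, hTT⟩ : ∃ T : ℕ, T = 2 ^ w + 2 ^ m := ⟨_, rfl⟩
  have hw0 : 0 < W := by rw [hW]; positivity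
  have hT0 : (0 : ℝ) < (T : ℝ) := by rw [hTT]; positivity
  have hTW : (T : ℝ) ≤ 2 * W := by
    rw [hTT, hW]; push_cast; linarith
  rw [← hTT] at hl ⊢
  have hμ2 : ∀ q r₀ : ℕ, ‖(∑ t ∈ range T, ((f t * wt m K t : ℝ) : ℂ) * kA q r₀ α t) /
      2 ^ w‖ ^ 2 ≤ 4 * ‖(∑ t ∈ range T,
      ((f t * wt m K t : ℝ) : ℂ) * ee (-(α * t)) * (DR q (r₀ + t) : ℂ)) / (T : ℂ)‖ ^ 2 := by
    intro q r₀
    have h1 : ∑ t ∈ range T, ((f t * wt m K t : ℝ) : ℂ) * kA q r₀ α t =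
        ∑ t ∈ range T, ((f t * wt m K t : ℝ) : ℂ) * ee (-(α * t)) *
          (DR q (r₀ + t) : ℂ) := by
      refine sum_congr rfl fun t _ => ?_
      unfold kA; ring
    rw [h1, norm_div, norm_div, norm_pow, Complex.norm_ofNat, Complex.norm_natCast, ← hW]
    obtain ⟨A, hA⟩ : ∃ A, A = ‖∑ t ∈ range T, ((f t * wt m K t : ℝ) : ℂ) * ee (-(α * t)) *
          (DR q (r₀ + t) : ℂ)‖ := ⟨_, rfl⟩
    rw [← hA]
    have hA0 : 0 ≤ A := by rw [hA]; exact norm_nonneg _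
    have h3 : A / W ≤ 2 * (A / (T : ℝ)) := by
      rw [div_le_iff₀ hw0, mul_assoc, div_mul_eq_mul_div, mul_div_assoc', le_div_iff₀ hT0]
      nlinarith
    have h4 : 0 ≤ A / W := by positivity
    calc (A / W) ^ 2 ≤ (2 * (A / (T : ℝ))) ^ 2 := pow_le_pow_left₀ h4 h3 2
      _ = _ := by ring
  calc ∑ q ∈ oct m, (∑ r₀ ∈ range q, ‖(∑ t ∈ range T,
        ((f t * wt m K t : ℝ) : ℂ) * kA q r₀ α t) / 2 ^ w‖ ^ 2) / (q : ℝ) ≤
      ∑ q ∈ oct m, 4 * ((∑ r₀ ∈ range q, ‖(∑ t ∈ range T,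
        ((f t * wt m K t : ℝ) : ℂ) * ee (-(α * t)) *
          (DR q (r₀ + t) : ℂ)) / (T : ℂ)‖ ^ 2) / q) := by
        refine sum_le_sum fun q _ => ?_
        rw [← mul_div_assoc, mul_sum]
        exact div_le_div_of_nonneg_right (sum_le_sum fun r₀ _ => hμ2 q r₀)
          (Nat.cast_nonneg q)
    _ ≤ 4 * 2 := by
        rw [← mul_sum]
        exact mul_le_mul_of_nonneg_left hl (by norm_num)
    _ = 8 := by norm_num

/-- The sum over the primes, given the bounds. -/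
theorem exa_sum {c κ : ℝ} {m : ℕ} (hc : 0 < c) (F μ : ℕ → ℕ → ℝ)
    (hexp : Real.exp (18 * κ) ≤ 4 / c * ((oct m).card : ℝ)) (hμ : ∀ q r, 0 ≤ μ q r)
    (hsum : ∑ q ∈ oct m, (∑ r₀ ∈ range q, μ q r₀) / q ≤ 8)
    (hF : ∀ q ∈ oct m, ∀ r₀, F q r₀ ≤ 4 * (1 + μ q r₀ * Real.exp (18 * κ))) :
    ∑ q ∈ oct m, (∑ r₀ ∈ range q, F q r₀) / q ≤ 4 * (1 + 32 / c) * ((oct m).card : ℝ) := by
  calc ∑ q ∈ oct m, (∑ r₀ ∈ range q, F q r₀) / (q : ℝ) ≤
      ∑ q ∈ oct m, (∑ r₀ ∈ range q, 4 * (1 + μ q r₀ * Real.exp (18 * κ))) / q := by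
        refine sum_le_sum fun q hq => ?_
        exact div_le_div_of_nonneg_right (sum_le_sum fun r₀ _ => hF q hq r₀) (Nat.cast_nonneg q)
    _ = 4 * (((oct m).card : ℝ) + Real.exp (18 * κ) *
          ∑ q ∈ oct m, (∑ r₀ ∈ range q, μ q r₀) / q) := by
        have h1 : ∀ q ∈ oct m,
            (∑ r₀ ∈ range q, 4 * (1 + μ q r₀ * Real.exp (18 * κ))) / (q : ℝ) =
            4 * (1 + Real.exp (18 * κ) * ((∑ r₀ ∈ range q, μ q r₀) / q)) := by
          intro q hq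
          have hq0 : (q : ℝ) ≠ 0 := by
            have := (mem_filter.1 hq).2.pos
            positivity
          rw [← mul_sum, sum_add_distrib, sum_const, card_range, nsmul_eq_mul, mul_one,
            ← sum_mul]
          field_simp
        rw [sum_congr rfl h1, ← mul_sum, sum_add_distrib, sum_const, nsmul_eq_mul, mul_one,
          ← mul_sum]
    _ ≤ 4 * (((oct m).card : ℝ) + (4 / c * ((oct m).card : ℝ)) * 8) := by
        refine mul_le_mul_of_nonneg_left ?_ (by norm_num)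
        have h1 : 0 ≤ ∑ q ∈ oct m, (∑ r₀ ∈ range q, μ q r₀) / (q : ℝ) :=
          sum_nonneg fun q _ => div_nonneg (sum_nonneg fun r _ => hμ q r) (Nat.cast_nonneg q)
        have h2 := mul_le_mul hexp hsum h1 (by positivity)
        linarith
    _ = 4 * (1 + 32 / c) * ((oct m).card : ℝ) := by ring

theorem exa_swap (R D K m : ℕ) (G : ℕ → ℕ → ℕ → (Fin R → Fin D) → ℝ) :
    ∑ q ∈ oct m, (∑ r₀ ∈ range q, avE R D (fun e => ∑ k ∈ range K, G q r₀ k e)) / (q : ℝ) =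
      ∑ k ∈ range K, ∑ q ∈ oct m, (∑ r₀ ∈ range q, avE R D (fun e => G q r₀ k e)) / q := by
  rw [sum_comm]
  refine sum_congr rfl fun q _ => ?_
  rw [← sum_div]
  congr 1
  rw [sum_comm]
  refine sum_congr rfl fun r₀ _ => ?_
  unfold avE
  rw [← sum_div, sum_comm]

/-- Row EXA. -/
theorem pf_EXA (hH : T_HFC) (hL : T_LSV) (hM : T_MEA) (hP : T_PIL) : T_EXA := by
  obtain ⟨c, m₀, hc, hoct⟩ := hP
  refine ⟨4 * (1 + 32 / c), 100000 + 400 * (m₀ + 1), ?_, ?_⟩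
  · have : 0 < 32 / c := by positivity
    linarith
  intro w m f α hw hm1 hm2 hf
  have hmm : m₀ ≤ m := by omega
  have hmpos : 1 ≤ m := by omega
  have hmw : 4 * m + 4 ≤ w := by omega
  have hw400 : w ≤ 400 * (m + 1) := by omega
  have hw5 : 10 ^ 5 ≤ w := by
    calc (10 : ℕ) ^ 5 = 100000 := by norm_num
      _ ≤ w := (Nat.le_add_right _ _).trans hw
  obtain ⟨κ, hκ⟩ : ∃ κ : ℝ, κ = (w : ℝ) / 10 ^ 6 := ⟨_, rfl⟩
  have hκ0 : 0 ≤ κ := by rw [hκ]; positivity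
  have hexp := exa_card hc (hoct m hmm) hmpos hw400 hκ
  have hR : 1000 * κ ≤ ((2 ^ rho w : ℕ) : ℝ) := by rw [hκ]; exact exa_R w
  rw [← hκ, exa_swap]
  have hone : ∀ k ∈ range (2 ^ rho w + 1), ∑ q ∈ oct m, (∑ r₀ ∈ range q,
      avE (2 ^ rho w) (2 ^ (w - rho w)) (fun e =>
        Real.exp (κ * ‖smp f m (kA q r₀ α) e k‖ ^ 2))) / q ≤
      4 * (1 + 32 / c) * ((oct m).card : ℝ) := by
    intro k hk
    have hk' : k ≤ 2 ^ rho w := Nat.lt_succ_iff.1 (mem_range.1 hk)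
    refine exa_sum hc _ (fun q r₀ => ‖(∑ t ∈ range (2 ^ w + 2 ^ m),
      ((f t * wt m (k * 2 ^ (w - rho w)) t : ℝ) : ℂ) * kA q r₀ α t) / 2 ^ w‖ ^ 2) hexp
      (fun q r => by positivity) (exa_lsv hL hmw f hf α) ?_
    intro q hq r₀
    have h1 := exa_smp hH (Nat.one_le_two_pow (n := w - rho w)) (Nat.one_le_two_pow (n := rho w))
      hκ0 hR hq k f hf r₀ α
    have h2 := hM w m k f (kA q r₀ α) hw5 hm2 hk'
    have h4 : (((2 ^ (w - rho w) : ℕ) : ℂ)) ^ (2 ^ rho w) =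
        ((2 : ℂ) ^ (w - rho w)) ^ (2 ^ rho w) := by
      rw [Nat.cast_pow, Nat.cast_ofNat]
    rw [h4, h2] at h1
    exact h1
  refine (sum_le_sum hone).trans (le_of_eq ?_)
  rw [sum_const, card_range, nsmul_eq_mul, Nat.cast_add, Nat.cast_pow, Nat.cast_ofNat,
    Nat.cast_one]
  ring

end Pool.Agent.H10.ES
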